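import Pool.Agent.Helper29.BA.ACDef
import Pool.Agent.Helper33.HM.CondCCC
import Pool.Agent.Helper43.HM.HechlerReal
import Pool.Agent.Helper8.HM.Reals
import Pool.Agent.Helper84.BA.Pt

/-!
# Project BA, V3c: the Hechler reals form a scale
-/

set_option autoImplicit false

namespace Pool.Agent.Helper94.BA

open Pool.Agent.Helper33.HM Filter

universe u

theorem h55_ae_leStar {B : Type u} [CompleteBooleanAlgebra B] (f g : ℕ → ℕ → B) :
    ∀ᶠ φ in aeB B, (φ (leStar f g) ↔ ∃ m : ℕ, ∀ n, m ≤ n → ∀ k, φ (g n k) → φ (f n k)) := by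
  filter_upwards [ae_iSup fun m : ℕ => ⨅ n : ℕ, ⨅ _ : m ≤ n, ⨅ k : ℕ, g n k ⇨ f n k,
    ae_forall fun m : ℕ => ae_iInf fun n : ℕ => ⨅ _ : m ≤ n, ⨅ k : ℕ, g n k ⇨ f n k,
    ae_forall fun n : ℕ => ae_iInf fun k : ℕ => g n k ⇨ f n k] with φ h1 h2 h3
  unfold leStar
  rw [h1]
  refine exists_congr fun m => ?_
  rw [h2]
  refine forall_congr' fun n => ?_
  rw [Pt.iInf_prop]
  refine forall_congr' fun _ => ?_
  rw [h3]
  simp

theorem cond_ac : AC (Cond Ordinal.{0}) := Cond.cond_ccc

theorem isScale_hiter {B : Type 1} [CompleteBooleanAlgebra B] (It : HIter B) : IsScale It.d := by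
  refine ⟨fun β => ⟨fun _ _ => trivial, (It.d_fn β).mono, (It.d_fn β).tot⟩, ?_, ?_⟩
  · intro β γ hβγ
    rcases hβγ.eq_or_lt with rfl | hlt
    · refine eq_top_iff.2 (le_trans ?_ (le_iSup _ 0))
      exact le_iInf fun n => le_iInf fun _ => le_iInf fun k => by rw [himp_self]
    · have h1 : IsFn (It.S γ) (It.d β) :=
        ⟨fun n k => It.mono _ _ (Order.succ_le_of_lt hlt) ((It.d_fn β).mem n k),
          (It.d_fn β).mono, (It.d_fn β).tot⟩
      exact hechler_dom It γ h1
  · intro g hg
    obtain ⟨β, hβ⟩ := exists_stage It (fun j => g j.unpair.1 j.unpair.2)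
    have hmem : ∀ n k, g n k ∈ It.S β := fun n k => by
      have := hβ (Nat.pair n k)
      simpa using this
    let g' : ℕ → ℕ → B := fun n k => if k = 0 then ⊥ else g n (k - 1)
    have hg' : IsFn (It.S β) g' := by
      refine ⟨?_, ?_, ?_⟩
      · intro n k
        exact (It.sub β).ite_mem (It.sub β).bot_mem (hmem _ _)
      · intro n k
        by_cases hk : k = 0
        · simp [g', hk]
        · obtain ⟨k, rfl⟩ := Nat.exists_eq_succ_of_ne_zero hk
          simpa [g'] using hg.mono n k
      · intro n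
        rw [eq_top_iff, ← hg.tot n]
        refine iSup_le fun k => ?_
        refine le_trans ?_ (le_iSup _ (k + 1))
        simp [g']
    have h1 : leStar g' (It.d β) = ⊤ := hechler_dom It β hg'
    rw [eq_bot_iff]
    refine (iInf_le _ β).trans (le_of_ae ?_)
    filter_upwards [h55_ae_leStar (It.d β) g, h55_ae_leStar g' (It.d β),
      ae_forall fun n : ℕ => ae_iSup fun k : ℕ => g n k] with φ h2 h3 h4
    intro h5
    exfalso
    obtain ⟨m, hm⟩ := h2.1 h5
    obtain ⟨m', hm'⟩ := h3.1 (by simp [h1])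
    have h6 := (h4 (max m m')).1 (by rw [hg.tot]; simp)
    obtain ⟨k, hk⟩ := h6
    have key : ∀ k, ¬ φ (g (max m m') k) := by
      intro k
      induction k with
      | zero =>
        intro h
        have h7 := hm' _ (le_max_right m m') 0 (hm _ (le_max_left m m') 0 h)
        simp [g'] at h7
      | succ k ih =>
        intro h
        have h7 := hm' _ (le_max_right m m') (k + 1) (hm _ (le_max_left m m') (k + 1) h)
        simp only [g', Nat.add_eq_zero_iff, one_ne_zero, and_false, if_false,
          Nat.add_sub_cancel] at h7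
        exact ih h7
    exact key k hk

end Pool.Agent.Helper94.BA
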