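import Pool.Agent.Helper84.BA.Defs1
import Pool.Agent.Helper84.BA.MaxName
import Pool.Agent.Helper84.BA.Pt

/-!
# Project BA, N6a: exhausting a family coded by an extensional value
-/

set_option autoImplicit false

namespace Pool.Agent.Helper94.BA

open Pool.Agent.Helper33.HM

universe u

section

variable {B : Type u} [CompleteBooleanAlgebra B]

open Classical in
/-- A name which realizes the supremum of the values, if there is one. -/
noncomputable def exPick (Φ : (ℕ → B) → B) : ℕ → B :=
  if h : ∃ x, Φ x = ⨆ y, Φ y then h.choose else ⊥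

theorem exPick_spec {Φ : (ℕ → B) → B} (h : ∃ x, Φ x = ⨆ y, Φ y) :
    Φ (exPick Φ) = ⨆ y, Φ y := by
  unfold exPick
  rw [dif_pos h]
  exact h.choose_spec

/-- The value of: `x` belongs to the family and is none of the first `j` chosen names. -/
noncomputable def exG (S : (ℕ → B) → B) : ℕ → (ℕ → B) → B
  | 0 => S
  | j + 1 => fun x => exG S j x ⊓ (eqV x (exPick (exG S j)))ᶜ

theorem exG_ext {S : (ℕ → B) → B} (hS : ∀ x y, eqV x y ⊓ S x ≤ S y) (j : ℕ) (x y : ℕ → B) :
    eqV x y ⊓ exG S j x ≤ exG S j y := by
  induction j with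
  | zero => exact hS x y
  | succ j ih =>
    refine le_inf ?_ ?_
    · exact le_trans (inf_le_inf_left _ inf_le_left) ih
    · refine le_of_ae ?_
      filter_upwards [ae_eqV x y, ae_eqV x (exPick (exG S j)), ae_eqV y (exPick (exG S j))]
        with φ h1 h2 h3
      intro h
      simp only [exG, Pt.inf, Pt.compl, h1, h2, h3] at h ⊢
      intro h4
      exact h.2.2 fun n => (h.1 n).trans (h4 n)

theorem exG_succ_le (S : (ℕ → B) → B) (j : ℕ) (x : ℕ → B) : exG S (j + 1) x ≤ exG S j x :=
  inf_le_left

theorem exG_le (S : (ℕ → B) → B) {i j : ℕ} (h : i ≤ j) (x : ℕ → B) : exG S j x ≤ exG S i x := by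
  induction h with
  | refl => exact le_rfl
  | step _ ih => exact (exG_succ_le S _ x).trans ih

theorem exists_exhaust (hc : CCC B) (S : (ℕ → B) → B) (hS : ∀ x y, eqV x y ⊓ S x ≤ S y) :
    ∃ (a : ℕ → ℕ → B) (e : ℕ → B), Exhaust S a e := by
  have hpick : ∀ j, exG S j (exPick (exG S j)) = ⨆ y, exG S j y := fun j =>
    exPick_spec (max_name hc (exG S j) (exG_ext hS j))
  refine ⟨fun j => exPick (exG S j), fun j => exG S j (exPick (exG S j)), ?_, ?_, ?_, ?_⟩
  · intro j
    rw [hpick j]
    exact (exG_succ_le S j _).trans (le_iSup (fun y => exG S j y) _)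
  · intro j
    exact exG_le S (Nat.zero_le j) _
  · intro i j hij
    exact (exG_le S (Nat.succ_le_of_lt hij) _).trans inf_le_right
  · intro j x
    have key : S x ≤ exG S j x ⊔ ⨆ i : ℕ, ⨆ _ : i < j, eqV x (exPick (exG S i)) := by
      induction j with
      | zero => exact le_sup_left
      | succ j ih =>
        refine ih.trans (sup_le ?_ ?_)
        · have h1 : exG S j x ≤ exG S (j + 1) x ⊔ eqV x (exPick (exG S j)) := by
            change exG S j x ≤ (exG S j x ⊓ (eqV x (exPick (exG S j)))ᶜ) ⊔
              eqV x (exPick (exG S j))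
            rw [sup_inf_right, compl_sup_eq_top, inf_top_eq]
            exact le_sup_left
          refine h1.trans (sup_le_sup_left ?_ _)
          exact le_iSup₂_of_le j (Nat.lt_succ_self j) le_rfl
        · refine le_sup_of_le_right ?_
          exact iSup₂_le fun i hi => le_iSup₂_of_le i (Nat.lt_succ_of_lt hi) le_rfl
    refine key.trans (sup_le_sup_right ?_ _)
    change exG S j x ≤ exG S j (exPick (exG S j))
    rw [hpick j]
    exact le_iSup (fun y => exG S j y) x

end

end Pool.Agent.Helper94.BA
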