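import Pool.Agent.Helper33.HM.Iter

/-!
# Project BA, V3b: the number of conditions of the Hechler iteration
-/

set_option autoImplicit false

namespace Pool.Agent.Helper94.BA

open Pool.Agent.Helper33.HM Cardinal

/-- There are as many sequences of small ordinals as small ordinals. -/
theorem h55_mk_seq : #(ℕ → Ordinal.{0}) ≤ #Ordinal.{0} := by
  have hinj : Function.Injective (fun f : ℕ → Ordinal.{0} =>
      (⟨⨆ n, Order.succ (f n), fun n => ⟨f n,
        lt_of_lt_of_le (Order.lt_succ (f n)) (Ordinal.le_iSup (fun n => Order.succ (f n)) n)⟩⟩ :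
        Σ α : Ordinal.{0}, (ℕ → Set.Iio α))) := by
    intro f g h
    funext n
    have h1 := congrArg (fun x : Σ α : Ordinal.{0}, (ℕ → Set.Iio α) => ((x.2 n).1 : Ordinal.{0})) h
    exact h1
  refine (mk_le_of_injective hinj).trans ?_
  rw [mk_sigma]
  have h1 : ∀ α : Ordinal.{0}, #(ℕ → Set.Iio α) ≤ #Ordinal.{0} := by
    intro α
    rw [mk_ordinal]
    have h2 : Small.{0} (ℕ → Set.Iio α) := small_Pi _
    have h3 := small_iff_lift_mk_lt_univ.1 h2
    rw [lift_id'.{1, 1}] at h3
    exact h3.le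
  refine (sum_le_sum _ (fun _ => #Ordinal.{0}) h1).trans ?_
  rw [sum_const', mul_eq_self]
  rw [mk_ordinal]
  exact aleph0_lt_univ.le

theorem h55_aleph0_le : ℵ₀ ≤ #Ordinal.{0} := by
  rw [mk_ordinal]
  exact aleph0_lt_univ.le

theorem h55_mk_prod {X Y : Type 1} (hX : #X ≤ #Ordinal.{0}) (hY : #Y ≤ #Ordinal.{0}) :
    #(X × Y) ≤ #Ordinal.{0} := by
  rw [mk_prod, lift_id, lift_id]
  exact (mul_le_mul' hX hY).trans (mul_eq_self h55_aleph0_le).le

theorem h55_mk_small {X : Type} : #(ULift.{1} X) ≤ #Ordinal.{0} := by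
  rw [mk_ordinal, mk_uLift]
  exact (lift_lt_univ _).le

/-- The data of a condition, where the conditions occurring in it are replaced by ordinals. -/
abbrev H55Data : Type 1 :=
  Option (Ordinal.{0} × ULift.{1} (List ℕ × ℕ × (ℕ → ℕ → ℕ → ℕ)) × Ordinal.{0} ×
    (ℕ × ℕ × ℕ → Ordinal.{0}))

theorem h55_mk_data : #H55Data ≤ #Ordinal.{0} := by
  have h1 : #(ℕ × ℕ × ℕ → Ordinal.{0}) ≤ #Ordinal.{0} := by
    have e : (ℕ × ℕ × ℕ → Ordinal.{0}) ≃ (ℕ → Ordinal.{0}) :=
      Equiv.arrowCongr (Denumerable.eqv (ℕ × ℕ × ℕ)) (Equiv.refl _)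
    rw [mk_congr e]
    exact h55_mk_seq
  have h2 : #(Ordinal.{0} × ULift.{1} (List ℕ × ℕ × (ℕ → ℕ → ℕ → ℕ)) × Ordinal.{0} ×
    (ℕ × ℕ × ℕ → Ordinal.{0})) ≤ #Ordinal.{0} :=
    h55_mk_prod le_rfl (h55_mk_prod h55_mk_small (h55_mk_prod le_rfl h1))
  rw [mk_option]
  refine (add_le_add h2 ((one_lt_aleph0.le).trans h55_aleph0_le)).trans ?_
  rw [add_eq_self h55_aleph0_le]

/-- The code of a raw condition. -/
noncomputable def h55code (F : H55Data → Ordinal.{0}) : Raw Ordinal.{0} → Ordinal.{0}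
  | .one => F none
  | .cons p i s m f v =>
      F (some (i, ⟨(s, m, v)⟩, h55code F p, fun x => h55code F (f x.1 x.2.1 x.2.2)))

theorem h55code_inj {F : H55Data → Ordinal.{0}} (hF : Function.Injective F) :
    Function.Injective (h55code F) := by
  intro p
  induction p with
  | one =>
    intro q h
    cases q with
    | one => rfl
    | cons q i s m f v =>
      have h1 := hF h
      simp at h1
  | cons p i s m f v ih ihf =>
    intro q h
    cases q with
    | one =>
      have h1 := hF h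
      simp at h1
    | cons q j t k g w =>
      have h1 := hF h
      simp only [Option.some.injEq, Prod.mk.injEq, ULift.up.injEq] at h1
      obtain ⟨rfl, ⟨rfl, rfl, rfl⟩, h2, h3⟩ := h1
      have h4 := ih h2
      subst h4
      have h5 : f = g := by
        funext l n k'
        exact ihf l n k' (congrFun h3 (l, n, k'))
      rw [h5]

theorem mk_cond : #(Cond Ordinal.{0}) ≤ #Ordinal.{0} := by
  obtain ⟨F⟩ := (le_def _ _).1 h55_mk_data
  have h := h55code_inj F.injective
  exact mk_le_of_injective (f := fun p : Cond Ordinal.{0} => h55code F p.1)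
    (h.comp Subtype.val_injective)

end Pool.Agent.Helper94.BA
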